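import Pool.Agent.H55.GW.Targets1

/-!
# Module EXP
-/

set_option autoImplicit false

namespace Pool.Agent.H24.GW2

open Pool.Agent.H55.GW Frame

theorem pm_inj {F : Frame} {m : ℕ → Vx} (hm : F.IsPM m) {p p' : ℕ} (hp : p ∈ F.V)
    (hp' : p' ∈ F.V) (h : m p = m p') : p = p' := by
  rcases h1 : m p with e | u
  · have h2 := (hm p hp).1 e h1
    have h3 := (hm p' hp').1 e (h ▸ h1)
    exact F.att_uniq e p p' h2 h3
  · have h2 := ((hm p hp).2 u h1).2
    have h3 := ((hm p' hp').2 u (h ▸ h1)).2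
    rw [h2] at h3
    exact Sum.inr.inj h3

theorem exp : T_EXP := by
  classical
  intro F m m' φ hφ hm hm' hyp X hX S hsep
  set Z : Finset ℕ := F.V.filter fun p => F.isP p ∧
    ∃ x ∈ X, RIn (F.D m') (S : Set Vx)ᶜ (Sum.inr x) (Sum.inr p) with hZ
  have hZ1 : ∀ p ∈ Z, p ∈ F.V ∧ F.isP p := by
    intro p hp
    obtain ⟨h1, h2, -⟩ := Finset.mem_filter.mp hp
    exact ⟨h1, h2⟩
  have hXZ : X.card ≤ Z.card + S.card := by
    have h1 : X.image (Sum.inr : ℕ → Vx) ⊆ Z.image (Sum.inr : ℕ → Vx) ∪ S := by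
      intro y hy
      obtain ⟨x, hx, rfl⟩ := Finset.mem_image.mp hy
      by_cases hS : Sum.inr x ∈ S
      · exact Finset.mem_union_right _ hS
      · refine Finset.mem_union_left _ (Finset.mem_image_of_mem _ ?_)
        exact Finset.mem_filter.mpr ⟨(hX x hx).1, (hX x hx).2, x, hx, RIn.refl (by simpa using hS)⟩
    have h2 := (Finset.card_le_card h1).trans (Finset.card_union_le _ _)
    rwa [Finset.card_image_of_injective _ Sum.inr_injective,
      Finset.card_image_of_injective _ Sum.inr_injective] at h2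
  set N : Finset Vx := F.uni_finite.toFinset.filter fun y => ∃ p ∈ Z, F.G y (Sum.inr p) with hN
  have hmem : ∀ y, (∃ p ∈ Z, F.G y (Sum.inr p)) → y ∈ N := by
    rintro y ⟨p, hp, hy⟩
    refine Finset.mem_filter.mpr ⟨?_, p, hp, hy⟩
    rw [Set.Finite.mem_toFinset]
    rcases G_D hm hy with h | h
    · exact (D_uni h).1
    · exact (D_uni h).2
  have himg : ∀ μ : ℕ → Vx, F.IsPM μ → Z.image μ ⊆ N ∧ (Z.image μ).card = Z.card := by
    intro μ hμ
    constructor
    · intro y hy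
      obtain ⟨p, hp, rfl⟩ := Finset.mem_image.mp hy
      exact hmem _ ⟨p, hp, D_G (D_mate_P hμ (hZ1 p hp).1 (hZ1 p hp).2)⟩
    · refine Finset.card_image_of_injOn ?_
      intro p hp p' hp' h
      exact pm_inj hμ (hZ1 p hp).1 (hZ1 p' hp').1 h
  set S' : Finset Vx := N \ Z.image m with hS'
  have hS'card : S'.card ≤ S.card := by
    have h1 : S'.card = (N \ Z.image m').card := by
      rw [hS', Finset.card_sdiff_of_subset (himg m hm).1, Finset.card_sdiff_of_subset (himg m' hm').1,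
        (himg m hm).2, (himg m' hm').2]
    rw [h1]
    let f : Vx → Vx := fun y => if y ∈ S then y else (match y with
      | Sum.inl e => Sum.inl e
      | Sum.inr q => m' q)
    have hfS : ∀ y, y ∈ S → f y = y := fun y hy => by simp only [f, hy, if_true]
    have hfQ : ∀ q : ℕ, (Sum.inr q : Vx) ∉ S → f (Sum.inr q) = m' q :=
      fun q hy => by simp only [f, hy, if_false]
    -- out-neighbours
    have hout : ∀ y ∈ N \ Z.image m', ∃ p ∈ Z, F.D m' (Sum.inr p) y ∧
        ∃ x ∈ X, RIn (F.D m') (S : Set Vx)ᶜ (Sum.inr x) (Sum.inr p) := by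
      intro y hy
      obtain ⟨h1, h2⟩ := Finset.mem_sdiff.mp hy
      obtain ⟨-, p, hp, h3⟩ := Finset.mem_filter.mp h1
      refine ⟨p, hp, ?_, (Finset.mem_filter.mp hp).2.2⟩
      rcases G_D hm' h3 with h | h
      · exact absurd (Finset.mem_image.mpr ⟨p, hp, (in_P hm' (hZ1 p hp).2 h).symm⟩) h2
      · exact h
    -- real ones are in `S`
    have hreal : ∀ e : ℕ, (Sum.inl e : Vx) ∈ N \ Z.image m' → (Sum.inl e : Vx) ∈ S := by
      intro e he
      by_contra hS
      obtain ⟨p, hp, h1, x, hx, h2⟩ := hout _ he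
      exact hsep (Sum.inr x) ⟨x, hx, rfl⟩ (Sum.inl e) ⟨e, h1.2, rfl⟩
        (h2.tail h1 (by simpa using hS))
    -- class of internal ones
    have hcls : ∀ q : ℕ, (Sum.inr q : Vx) ∈ N → q ∈ F.V ∧ ¬ F.isP q := by
      intro q hq
      obtain ⟨-, p, hp, h3⟩ := Finset.mem_filter.mp hq
      rcases h3 with h3 | h3
      · exact absurd (hZ1 p hp).2 (adj_notP h3)
      · exact ⟨adj_right h3, adj_notP h3⟩
    have hmate : ∀ q : ℕ, (Sum.inr q : Vx) ∈ N \ Z.image m' → (Sum.inr q : Vx) ∉ S → m' q ∈ S := by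
      intro q hq hqS
      by_contra hS
      obtain ⟨p, hp, h1, x, hx, h2⟩ := hout _ hq
      have h3 := hcls q (Finset.mem_sdiff.mp hq).1
      have h4 := D_mate_Q hm' h3.1 h3.2
      have h5 : RIn (F.D m') (S : Set Vx)ᶜ (Sum.inr x) (m' q) :=
        (h2.tail h1 (by simpa using hqS)).tail h4 (by simpa using hS)
      rcases hm'.cases h3.1 with ⟨e, he, h6⟩ | ⟨u, hu, hu1, hu2, hu3, -⟩
      · rw [he] at h4 h5
        exact hsep (Sum.inr x) ⟨x, hx, rfl⟩ (Sum.inl e) ⟨e, h4.2, rfl⟩ h5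
      · rw [hu] at h5
        have huP : F.isP u := by
          by_contra hcon
          exact h3.2 (hu3.2 hcon)
        have huZ : u ∈ Z := Finset.mem_filter.mpr ⟨hu1, huP, x, hx, h5⟩
        exact (Finset.mem_sdiff.mp hq).2 (Finset.mem_image.mpr ⟨u, huZ, hu2⟩)
    refine Finset.card_le_card_of_injOn f ?_ ?_
    · intro y hy
      by_cases hyS : y ∈ S
      · rw [hfS y hyS]; exact hyS
      · rcases y with e | q
        · exact absurd (hreal e hy) hyS
        · rw [hfQ q hyS]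
          exact hmate q hy hyS
    · have hmix : ∀ y₁ ∈ N \ Z.image m', ∀ q₂ : ℕ, (Sum.inr q₂ : Vx) ∈ N \ Z.image m' →
          y₁ ∈ S → y₁ ≠ m' q₂ := by
        intro y₁ hy₁ q₂ hq₂ hyS h
        have h2 := hcls q₂ (Finset.mem_sdiff.mp hq₂).1
        rcases y₁ with e | q₁
        · obtain ⟨p, hp, h1, -⟩ := hout _ hy₁
          have h3 := (hm' q₂ h2.1).1 e h.symm
          have h4 := F.att_uniq e p q₂ h1.1 h3
          exact h2.2 (h4 ▸ (hZ1 p hp).2)
        · have h1 := hcls q₁ (Finset.mem_sdiff.mp hy₁).1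
          rcases ((hm' q₂ h2.1).2 q₁ h.symm).1 with h3 | h3
          · exact h2.2 (adj_isP h3)
          · exact h1.2 (adj_isP h3)
      intro y₁ hy₁ y₂ hy₂ h
      by_cases h1 : y₁ ∈ S <;> by_cases h2 : y₂ ∈ S
      · rwa [hfS _ h1, hfS _ h2] at h
      · rcases y₂ with e | q₂
        · exact absurd (hreal e hy₂) h2
        · rw [hfS _ h1, hfQ _ h2] at h
          exact absurd h (hmix _ hy₁ q₂ hy₂ h1)
      · rcases y₁ with e | q₁
        · exact absurd (hreal e hy₁) h1
        · rw [hfS _ h2, hfQ _ h1] at h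
          exact absurd h.symm (hmix _ hy₂ q₁ hy₁ h2)
      · rcases y₁ with e | q₁
        · exact absurd (hreal e hy₁) h1
        rcases y₂ with e | q₂
        · exact absurd (hreal e hy₂) h2
        rw [hfQ _ h1, hfQ _ h2] at h
        rw [pm_inj hm' (hcls q₁ (Finset.mem_sdiff.mp hy₁).1).1
          (hcls q₂ (Finset.mem_sdiff.mp hy₂).1).1 h]
  have hsep' : Sep (F.D m) (S' : Set Vx) (Sum.inr '' (Z : Set ℕ)) (F.snk m) := by
    rintro x ⟨z, hz, rfl⟩ t ⟨b, hb, rfl⟩ h
    have := h.induct (p := fun v => (∃ z ∈ Z, v = Sum.inr z) ∨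
      ∃ q, ∃ z ∈ Z, v = Sum.inr q ∧ m z = v ∧ ¬ F.isP q) (Or.inl ⟨z, hz, rfl⟩) ?_
    · rcases this with ⟨z', -, h1⟩ | ⟨q, z', -, h1, -⟩
      · simp at h1
      · simp at h1
    · rintro u w - hw hD (⟨z', hz', rfl⟩ | ⟨q, z', hz', rfl, h2, h3⟩)
      · have hwN : w ∈ N := hmem w ⟨z', hz', G_symm (D_G hD)⟩
        have hwI : w ∈ Z.image m := by
          by_contra hcon
          exact hw (by
            rw [Finset.mem_coe, hS']
            exact Finset.mem_sdiff.mpr ⟨hwN, hcon⟩)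
        obtain ⟨p', hp', h4⟩ := Finset.mem_image.mp hwI
        rcases w with e | q
        · exfalso
          have h5 := (hm p' (hZ1 p' hp').1).1 e h4
          exact ((mem_base_iff h5).1 hD.2).1 (hZ1 p' hp').2 h4
        · refine Or.inr ⟨q, p', hp', rfl, h4, ?_⟩
          rcases hD with ⟨h5, -⟩ | ⟨h5, -⟩
          · exact adj_notP h5
          · exact absurd (hZ1 z' hz').2 (adj_notP h5)
      · have h5 := out_Q hm h3 hD
        have h6 := ((hm z' (hZ1 z' hz').1).2 q h2).2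
        rw [h6] at h5
        exact Or.inl ⟨z', hz', h5⟩
  have h1 := hyp Z hZ1 S' hsep'
  have h2 := hφ hS'card
  omega

end Pool.Agent.H24.GW2
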