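import Pool.Agent.H55.GW.Targets1

/-!
# Module R0
-/

set_option autoImplicit false

namespace Pool.Agent.H24.GW2

open Pool.Agent.H55.GW Frame

/-- the frame without the internal vertices of `Z`; real elements hanging at `Z` become loops -/
noncomputable def delF (F : Frame) (Z : Set ℕ) : Frame where
  V := by classical exact F.V.filter (fun v => v ∉ Z)
  E := F.E
  isP := F.isP
  adj := fun x y => F.adj x y ∧ x ∉ Z ∧ y ∉ Z
  att := fun e v => F.att e v ∧ v ∉ Z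
  co := fun e => F.co e ∧ ∀ z ∈ Z, ¬ F.att e z
  adj_wf := fun p q h => by
    classical
    obtain ⟨h1, h2, h3, h4⟩ := F.adj_wf p q h.1
    exact ⟨Finset.mem_filter.mpr ⟨h1, h.2.1⟩, Finset.mem_filter.mpr ⟨h2, h.2.2⟩, h3, h4⟩
  att_wf := fun e v h => by
    classical
    obtain ⟨h1, h2⟩ := F.att_wf e v h.1
    exact ⟨h1, Finset.mem_filter.mpr ⟨h2, h.2⟩⟩
  att_uniq := fun e v w h h' => F.att_uniq e v w h.1 h'.1

theorem del_main (hREP : T_REP) (M : Matroid ℕ) (B : Set ℕ) (R : Bool → ℕ → ℕ → Prop) (F : Frame)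
    (m : ℕ → Vx) (col : Bool → Set ℕ) (hrig : Rig M B R F m col) (Z : Set ℕ)
    (ha : ∀ z ∈ Z, ∀ t ∈ F.snk m, ¬ RIn (F.D m) Set.univ (Sum.inr z) t)
    (hb : ∀ v ∈ F.V, v ∉ Z → ∀ z ∈ Z, m v ≠ Sum.inr z) (z₀ : ℕ) (hz₀ : z₀ ∈ Z)
    (hz₀' : z₀ ∈ F.V) : Smaller M B R F := by
  classical
  have hm := hrig.pm
  have hV : ∀ v, v ∈ (delF F Z).V ↔ v ∈ F.V ∧ v ∉ Z := by
    intro v
    simp [delF]
  have hsrc : ∀ z ∈ Z, ∀ e, F.att e z → e ∉ F.base m := by
    intro z hz e he hbase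
    exact ha z hz (Sum.inl e) ⟨e, hbase, rfl⟩
      (RIn.single (D := F.D m) (x := Sum.inr z) (y := Sum.inl e) ⟨he, hbase⟩ trivial trivial)
  have hpm : (delF F Z).IsPM m := by
    intro v hv
    obtain ⟨hv1, hv2⟩ := (hV v).1 hv
    refine ⟨fun e he => ⟨(hm v hv1).1 e he, hv2⟩, fun u hu => ?_⟩
    obtain ⟨h1, h2⟩ := (hm v hv1).2 u hu
    have hu2 : u ∉ Z := fun h => hb v hv1 hv2 u h hu
    refine ⟨?_, h2⟩
    rcases h1 with h1 | h1
    · exact Or.inl ⟨h1, hv2, hu2⟩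
    · exact Or.inr ⟨h1, hu2, hv2⟩
  have hbase : (delF F Z).base m = F.base m := by
    ext e
    constructor
    · rintro ⟨hE, ⟨v, hv, h2⟩ | ⟨h1, h2, h3⟩⟩
      · exact ⟨hE, Or.inl ⟨v, hv.1, h2⟩⟩
      · refine ⟨hE, Or.inr ⟨fun v hv => ?_, h2⟩⟩
        by_cases hvZ : v ∈ Z
        · exact h3 v hvZ hv
        · exact h1 v ⟨hv, hvZ⟩
    · intro he
      have he' := he
      obtain ⟨hE, ⟨v, hv, h2⟩ | ⟨h1, h2⟩⟩ := he
      · have hvZ : v ∉ Z := fun h => hsrc v h e hv he'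
        exact ⟨hE, Or.inl ⟨v, ⟨hv, hvZ⟩, h2⟩⟩
      · exact ⟨hE, Or.inr ⟨fun v hv => h1 v hv.1, h2, fun z _ hz => h1 z hz⟩⟩
  have hD : ∀ x y, F.D m x y → (∀ z ∈ Z, x ≠ Sum.inr z) → (∀ z ∈ Z, y ≠ Sum.inr z) →
      (delF F Z).D m x y := by
    intro x y h hx hy
    rcases x with e | u <;> rcases y with e' | v
    · exact absurd h (by simp [D])
    · refine ⟨⟨h.1, fun hv => hy v hv rfl⟩, ?_⟩
      rw [hbase]; exact h.2
    · refine ⟨⟨h.1, fun hv => hx u hv rfl⟩, ?_⟩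
      rw [hbase]; exact h.2
    · have hu : u ∉ Z := fun h' => hx u h' rfl
      have hv : v ∉ Z := fun h' => hy v h' rfl
      rcases h with ⟨h1, h2⟩ | ⟨h1, h2⟩
      · exact Or.inl ⟨⟨h1, hu, hv⟩, h2⟩
      · exact Or.inr ⟨⟨h1, hv, hu⟩, h2⟩
  have hD' : ∀ x y, (delF F Z).D m x y → F.D m x y := by
    intro x y h
    rcases x with e | u <;> rcases y with e' | v
    · exact absurd h (by simp [D])
    · refine ⟨h.1.1, ?_⟩
      have := h.2
      rwa [hbase] at this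
    · refine ⟨h.1.1, ?_⟩
      have := h.2
      rwa [hbase] at this
    · rcases h with ⟨h1, h2⟩ | ⟨h1, h2⟩
      · exact Or.inl ⟨h1.1, h2⟩
      · exact Or.inr ⟨h1.1, h2⟩
  have key : ∀ (S : Set Vx) (x t : Vx), t ∈ F.snk m → RIn (F.D m) S x t →
      RIn ((delF F Z).D m) S x t := by
    intro S x t ht h
    obtain ⟨h1, h2⟩ := h
    have hsub : ∀ a, RIn (F.D m) S a t → ∀ z ∈ Z, a ≠ Sum.inr z := by
      rintro a h z hz rfl
      exact ha z hz t ht (h.mono_set (Set.subset_univ _))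
    induction h2 using Relation.ReflTransGen.head_induction_on with
    | refl => exact RIn.refl h1
    | @head a b h3 h4 ih =>
      exact RIn.head (hD _ _ h3.1 (hsub a ⟨h1, Relation.ReflTransGen.head h3 h4⟩)
        (hsub b ⟨h3.2, h4⟩)) h1 (ih h3.2)
  refine ⟨delF F Z, m, col, ⟨?_, hpm, ?_, hrig.disj, ?_⟩, ?_⟩
  · refine hREP F (delF F Z) m m M hrig.rep hm hpm rfl hbase ?_
    intro n X Y hX hY _ _
    constructor
    · rintro ⟨x, y, S, h1, h2⟩
      refine ⟨x, y, S, fun i => ⟨(h1 i).1, (h1 i).2.1, ?_⟩, h2⟩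
      obtain ⟨b, hb1, hb2⟩ := (h1 i).2.1
      exact key _ _ _ ⟨b, hY hb1, hb2.symm⟩ (h1 i).2.2
    · exact fun h => h.mono_rel hD'
  · rw [hbase]; exact hrig.base
  · intro c s t h
    have h1 := hrig.hold c s t h
    rcases h1.cases_tail with h2 | ⟨z, -, h2⟩
    · rw [← h2]
      exact RIn.refl (Or.inl (Or.inl rfl))
    · have ht : t ∈ F.base m := by
        rcases z with e | v
        · exact absurd h2 (by simp [D])
        · exact h2.2
      exact key _ _ _ ⟨t, ht, rfl⟩ h1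
  · refine Finset.card_lt_card ⟨fun v hv => ((hV v).1 hv).1, fun h => ?_⟩
    exact ((hV z₀).1 (h hz₀')).2 hz₀

theorem r0 (hREP : T_REP) : T_R0 := by
  classical
  intro M B R F m col hrig p hp hP hno
  have hm := hrig.pm
  refine del_main hREP M B R F m col hrig {v | v = p ∨ m p = Sum.inr v} ?_ ?_ p (Or.inl rfl) hp
  · rintro z (rfl | hz) t ht h
    · exact hno t ht h
    · -- `z` is the mate of `p`
      obtain ⟨h1, h2⟩ := (hm p hp).2 z hz
      have hzQ : ¬ F.isP z := by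
        rcases h1 with h1 | h1
        · exact adj_notP h1
        · exact absurd hP (adj_notP h1)
      rcases h.cases_head with h3 | ⟨y, h3, -, h4⟩
      · obtain ⟨b, -, hb⟩ := ht
        rw [hb] at h3
        exact absurd h3 (by simp)
      · rw [out_Q hm hzQ h3, h2] at h4
        exact hno t ht h4
  · intro v hv hvZ z hz h
    simp only [Set.mem_ofPred_eq, not_or] at hvZ hz
    obtain ⟨h1, h2⟩ := (hm v hv).2 z h
    rcases hz with rfl | hz
    · exact hvZ.2 h2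
    · have h3 := ((hm p hp).2 z hz).2
      rw [h3] at h2
      exact hvZ.1 (Sum.inr.inj h2).symm

end Pool.Agent.H24.GW2
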