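import Pool.Agent.H55.GW.Targets1

/-!
# Module R2
-/

set_option autoImplicit false

namespace Pool.Agent.H24.GW2

open Pool.Agent.H55.GW Frame

/-- the frame without the internal vertex `p`; the real element `e` now hangs at `q` -/
noncomputable def movF (F : Frame) (p q e : ℕ) (hq : q ∈ F.V) (hqp : q ≠ p) (he : e ∈ F.E) :
    Frame where
  V := F.V.erase p
  E := F.E
  isP := F.isP
  adj := fun x y => F.adj x y ∧ x ≠ p ∧ y ≠ p
  att := fun x v => (F.att x v ∧ x ≠ e ∧ v ≠ p) ∨ (x = e ∧ v = q)
  co := F.co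
  adj_wf := fun x y h => by
    obtain ⟨h1, h2, h3, h4⟩ := F.adj_wf x y h.1
    exact ⟨Finset.mem_erase.mpr ⟨h.2.1, h1⟩, Finset.mem_erase.mpr ⟨h.2.2, h2⟩, h3, h4⟩
  att_wf := fun x v h => by
    rcases h with ⟨h, h1, h2⟩ | ⟨rfl, rfl⟩
    · obtain ⟨h3, h4⟩ := F.att_wf x v h
      exact ⟨h3, Finset.mem_erase.mpr ⟨h2, h4⟩⟩
    · exact ⟨he, Finset.mem_erase.mpr ⟨hqp, hq⟩⟩
  att_uniq := fun x v w h h' => by
    rcases h with ⟨h, h1, h2⟩ | ⟨h, h1⟩ <;> rcases h' with ⟨h', h3, h4⟩ | ⟨h', h3⟩
    · exact F.att_uniq x v w h h'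
    · exact absurd h' h1
    · exact absurd h h3
    · rw [h1, h3]

theorem r2 (hREP : T_REP) : T_R2 := by
  classical
  intro M B R F m col hrig p hp hP q hmp e he hep hsep
  have hm := hrig.pm
  obtain ⟨hadj, hmq⟩ := (hm p hp).2 q hmp
  have hadj' : F.adj p q := by
    rcases hadj with h | h
    · exact h
    · exact absurd hP (adj_notP h)
  have hqV : q ∈ F.V := adj_right hadj'
  have hqQ : ¬ F.isP q := adj_notP hadj'
  have hqp : q ≠ p := fun h => hqQ (h ▸ hP)
  have heE : e ∈ F.E := att_E hep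
  -- nothing else hangs at `p`
  have hpe : ∀ x, F.att x p → x = e := by
    intro x hx
    by_contra hne
    have hxb : x ∈ F.base m := (mem_base_iff hx).2 ⟨fun _ h => by rw [hmp] at h; simp at h,
      fun _ => hP⟩
    refine hsep (Sum.inr p) rfl (Sum.inl x) ⟨x, hxb, rfl⟩ ?_
    refine RIn.single (D := F.D m) (x := Sum.inr p) (y := Sum.inl x) ⟨hx, hxb⟩ ?_ ?_
    · simp
    · simp [hne]
  set F' := movF F p q e hqV hqp heE with hF'
  set m' : ℕ → Vx := Function.update m q (Sum.inl e) with hm'
  have hm'q : m' q = Sum.inl e := by simp [hm']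
  have hm'v : ∀ v, v ≠ q → m' v = m v := by
    intro v hv
    simp [hm', Function.update_of_ne hv]
  have hV : ∀ v, v ∈ F'.V ↔ v ≠ p ∧ v ∈ F.V := by
    intro v
    simp [hF', movF]
  have hpm : F'.IsPM m' := by
    intro v hv
    obtain ⟨hvp, hvV⟩ := (hV v).1 hv
    by_cases hvq : v = q
    · subst hvq
      rw [hm'q]
      refine ⟨fun x hx => ?_, fun u hu => by simp at hu⟩
      rw [Sum.inl.injEq] at hx
      exact Or.inr ⟨hx.symm, rfl⟩
    · rw [hm'v v hvq]
      refine ⟨fun x hx => ?_, fun u hu => ?_⟩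
      · have h1 := (hm v hvV).1 x hx
        refine Or.inl ⟨h1, ?_, hvp⟩
        rintro rfl
        exact hvp (F.att_uniq x v p h1 hep)
      · obtain ⟨h1, h2⟩ := (hm v hvV).2 u hu
        have hup : u ≠ p := by
          rintro rfl
          rw [hmp] at h2
          exact hvq (Sum.inr.inj h2).symm
        have huq : u ≠ q := by
          rintro rfl
          rw [hmq] at h2
          exact hvp (Sum.inr.inj h2).symm
        rw [hm'v u huq]
        refine ⟨?_, h2⟩
        rcases h1 with h1 | h1
        · exact Or.inl ⟨h1, hvp, hup⟩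
        · exact Or.inr ⟨h1, hup, hvp⟩
  have hbase : F'.base m' = F.base m := by
    ext x
    by_cases hE : x ∈ F.E
    · by_cases hxe : x = e
      · subst hxe
        refine iff_of_true ?_ he
        refine ⟨hE, Or.inl ⟨q, Or.inr ⟨rfl, rfl⟩, ?_⟩⟩
        exact ⟨fun h => absurd h hqQ, fun h => absurd hm'q h⟩
      · by_cases ha : ∃ v, F.att x v
        · obtain ⟨v, hv⟩ := ha
          have hvp : v ≠ p := by
            rintro rfl
            exact hxe (hpe x hv)
          have hv' : F'.att x v := Or.inl ⟨hv, hxe, hvp⟩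
          rw [mem_base_iff hv', mem_base_iff hv]
          show (F.isP v ↔ m' v ≠ Sum.inl x) ↔ _
          by_cases hvq : v = q
          · rw [hvq, hm'q, hmq]
            have h1 : (Sum.inl e : Vx) ≠ Sum.inl x := fun h => hxe (Sum.inl.inj h).symm
            have h2 : (Sum.inr p : Vx) ≠ Sum.inl x := by simp
            simp only [h1, h2, ne_eq, not_false_eq_true]
          · rw [hm'v v hvq]
        · push Not at ha
          have ha' : ∀ v, ¬ F'.att x v := by
            rintro v (⟨h, -, -⟩ | ⟨h, -⟩)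
            · exact ha v h
            · exact hxe h
          rw [mem_base_iff_of_free (F := F') hE ha', mem_base_iff_of_free hE ha]
          rfl
    · exact iff_of_false (fun h => hE h.1) (fun h => hE h.1)
  have hD : ∀ x y, F.D m x y → x ≠ Sum.inr p → y ≠ Sum.inr p → F'.D m' x y := by
    intro x y h hx hy
    rcases x with a | u <;> rcases y with b | v
    · exact absurd h (by simp [D])
    · have hv : v ≠ p := fun h' => hy (by rw [h'])
      refine ⟨Or.inl ⟨h.1, ?_, hv⟩, ?_⟩
      · rintro rfl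
        exact h.2 he
      · rw [hbase]; exact h.2
    · have hu : u ≠ p := fun h' => hx (by rw [h'])
      refine ⟨Or.inl ⟨h.1, ?_, hu⟩, ?_⟩
      · rintro rfl
        exact hu (F.att_uniq b u p h.1 hep)
      · rw [hbase]; exact h.2
    · have hu : u ≠ p := fun h' => hx (by rw [h'])
      have hv : v ≠ p := fun h' => hy (by rw [h'])
      rcases h with ⟨h1, h2⟩ | ⟨h1, h2⟩
      · refine Or.inl ⟨⟨h1, hu, hv⟩, ?_⟩
        have huq : u ≠ q := by
          rintro rfl
          exact hqQ (adj_isP h1)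
        rw [hm'v u huq]; exact h2
      · refine Or.inr ⟨⟨h1, hv, hu⟩, ?_⟩
        have huq : u ≠ q := by
          rintro rfl
          rw [hmq] at h2
          exact hv (Sum.inr.inj h2).symm
        rw [hm'v u huq]; exact h2
  have hDqe : F'.D m' (Sum.inr q) (Sum.inl e) := by
    refine ⟨Or.inr ⟨rfl, rfl⟩, ?_⟩
    rw [hbase]; exact he
  have hD' : ∀ x y, F'.D m' x y → y ≠ Sum.inl e → F.D m x y := by
    intro x y h hy
    rcases x with a | u <;> rcases y with b | v
    · exact absurd h (by simp [D])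
    · obtain ⟨h1 | h1, h2⟩ := h
      · refine ⟨h1.1, ?_⟩
        rwa [hbase] at h2
      · rw [hbase, h1.1] at h2
        exact absurd he h2
    · have hbe : b ≠ e := fun h' => hy (by rw [h'])
      obtain ⟨h1 | h1, h2⟩ := h
      · refine ⟨h1.1, ?_⟩
        rwa [hbase] at h2
      · exact absurd h1.1 hbe
    · rcases h with ⟨h1, h2⟩ | ⟨h1, h2⟩
      · have huq : u ≠ q := by
          rintro rfl
          exact hqQ (adj_isP h1.1)
        rw [hm'v u huq] at h2
        exact Or.inl ⟨h1.1, h2⟩
      · have huq : u ≠ q := by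
          rintro rfl
          rw [hm'q] at h2
          simp at h2
        rw [hm'v u huq] at h2
        exact Or.inr ⟨h1.1, h2⟩
  have hDp : ∀ x y, F'.D m' x y → x ≠ Sum.inr p ∧ y ≠ Sum.inr p := by
    intro x y h
    obtain ⟨h1, h2⟩ := D_uni h
    constructor
    · rintro rfl
      rcases h1 with ⟨v, hv, h3⟩ | ⟨v, hv, h3⟩
      · rw [← Sum.inr.inj h3] at hv
        exact ((hV p).1 hv).1 rfl
      · simp at h3
    · rintro rfl
      rcases h2 with ⟨v, hv, h3⟩ | ⟨v, hv, h3⟩
      · rw [← Sum.inr.inj h3] at hv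
        exact ((hV p).1 hv).1 rfl
      · simp at h3
  -- walks of `D` to sinks
  have key : ∀ (S : Set Vx) (x t : Vx), t ∈ F.snk m → x ≠ Sum.inr p → RIn (F.D m) S x t →
      RIn (F'.D m') S x t := by
    intro S x t ht hxp h
    rcases h.avoid_or {Sum.inr p} with h1 | ⟨z, hz, h5, h2⟩
    · exact h1.mono (fun u v h hu hv => hD u v h hu.2 hv.2) Set.sdiff_subset
    · rw [Set.mem_singleton_iff] at hz
      subst hz
      -- the end is `e`
      have hte : t = Sum.inl e := by
        rcases h2.avoid_or {Sum.inl e} with h3 | ⟨z, hz, -, h3⟩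
        · exact absurd (h3.mono_set fun v hv => hv.2) (hsep _ rfl t ht)
        · rw [Set.mem_singleton_iff] at hz
          subst hz
          rcases h3.cases_head with h4 | ⟨z', h4, -⟩
          · exact h4.symm
          · exact absurd h4 (no_out_snk he z')
      have heS : Sum.inl e ∈ S := hte ▸ h.right_mem
      obtain ⟨a, ha1, ha2, ha3⟩ : ∃ u, RIn (F.D m) (S \ {Sum.inr p}) x u ∧ u ∉ ({Sum.inr p} : Set Vx)
          ∧ F.D m u (Sum.inr p) := by
        have h5' : RIn (F.D m) S x (Sum.inr p) := h5.mono_set (by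
          rintro v (hv | hv)
          · exact hv.1
          · rw [Set.mem_singleton_iff] at hv
            rw [hv]; exact h2.left_mem)
        obtain ⟨u, v, h6, h7, h8, h9, -⟩ := h5'.enter (T := {Sum.inr p}) (by simpa using hxp) rfl
        rw [Set.mem_singleton_iff] at h9
        subst h9
        exact ⟨u, h6, h7, h8⟩
      have haq : a = Sum.inr q := by rw [in_P hm hP ha3, hmp]
      rw [haq] at ha1
      have h7 : RIn (F'.D m') S x (Sum.inr q) :=
        ha1.mono (fun u v h hu hv => hD u v h hu.2 hv.2) Set.sdiff_subset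
      rw [hte]
      exact h7.tail hDqe heS
  have heb' : e ∈ F'.base m' := by rw [hbase]; exact he
  -- walks of `D'`
  have key1 : ∀ (S : Set Vx) (x y : Vx), x ≠ Sum.inr p → RIn (F'.D m') S x y →
      RIn (F'.D m') (S \ {Sum.inr p}) x y := by
    intro S x y hx h
    rcases h.avoid_or {Sum.inr p} with h1 | ⟨z, hz, h2, -⟩
    · exact h1
    · rw [Set.mem_singleton_iff] at hz
      subst hz
      rcases h2.cases_tail with h3 | ⟨a, -, h3⟩
      · exact absurd h3 hx
      · exact absurd rfl (hDp _ _ h3).2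
  have key2 : ∀ (S : Set Vx) (x y : Vx), y ≠ Sum.inl e → RIn (F'.D m') S x y →
      RIn (F.D m) S x y := by
    intro S x y hy h
    rcases h.avoid_or {Sum.inl e} with h1 | ⟨z, hz, -, h2⟩
    · exact h1.mono (fun u v h _ hv => hD' u v h hv.2) Set.sdiff_subset
    · rw [Set.mem_singleton_iff] at hz
      subst hz
      rcases h2.cases_head with h3 | ⟨a, h3, -⟩
      · exact absurd h3.symm hy
      · exact absurd h3 (no_out_snk heb' a)
  have key3 : ∀ (S : Set Vx) (x : Vx), x ≠ Sum.inl e → RIn (F'.D m') S x (Sum.inl e) →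
      RIn (F.D m) (S ∪ {Sum.inr p}) x (Sum.inl e) := by
    intro S x hx h
    rcases h.cases_tail with h1 | ⟨a, h1, h2⟩
    · exact absurd h1 hx
    · have haq : a = Sum.inr q := by
        rcases a with a | u
        · exact absurd h2 (by simp [D])
        · obtain ⟨h3 | h3, h4⟩ := h2
          · exact absurd rfl h3.2.1
          · rw [h3.2]
      subst haq
      have h3 := key2 S x (Sum.inr q) (by simp) h1
      have h4 : RIn (F.D m) (S ∪ {Sum.inr p}) x (Sum.inr q) := h3.mono_set Set.subset_union_left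
      have h5 : RIn (F.D m) (S ∪ {Sum.inr p}) x (Sum.inr p) :=
        h4.tail (Or.inr ⟨hadj', hmq⟩) (Or.inr rfl)
      exact h5.tail ⟨hep, he⟩ (Or.inl h.right_mem)
  refine ⟨F', m', col, ⟨?_, hpm, ?_, hrig.disj, ?_⟩, ?_⟩
  · refine hREP F F' m m' M hrig.rep hm hpm rfl hbase ?_
    intro n X Y hX hY _ _
    constructor
    · rintro ⟨x, y, S, h1, h2⟩
      refine ⟨x, y, S, fun i => ⟨(h1 i).1, (h1 i).2.1, ?_⟩, h2⟩
      obtain ⟨b, hb1, hb2⟩ := (h1 i).2.1
      obtain ⟨a, ha1, ha2⟩ := (h1 i).1
      exact key _ _ _ ⟨b, hY hb1, hb2.symm⟩ (by rw [← ha2]; simp) (h1 i).2.2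
    · rintro ⟨x, y, S, h1, h2⟩
      have hinj := (lnk_inj (fun i => (h1 i).2.2) h2).2
      refine ⟨x, y, fun i => if y i = Sum.inl e then (S i \ {Sum.inr p}) ∪ {Sum.inr p} else
        S i \ {Sum.inr p}, fun i => ⟨(h1 i).1, (h1 i).2.1, ?_⟩, ?_⟩
      · obtain ⟨a, ha1, ha2⟩ := (h1 i).1
        have h3 := key1 _ _ _ (by rw [← ha2]; simp) (h1 i).2.2
        by_cases hy : y i = Sum.inl e
        · simp only [hy, if_true]
          rw [hy] at h3
          refine key3 _ _ ?_ h3
          rw [← ha2]
          intro h4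
          rw [Sum.inl.inj h4] at ha1
          exact (hX ha1).2 he
        · simp only [hy, if_false]
          exact key2 _ _ _ hy h3
      · intro i j hij
        have hne : y i ≠ y j := fun h => hij (hinj h)
        have h3 := h2 i j hij
        rw [Set.disjoint_left] at h3 ⊢
        intro v hv hv'
        dsimp only at hv hv'
        split_ifs at hv hv' with h4 h5 h5
        · exact hne (h4.trans h5.symm)
        · rcases hv with hv | hv
          · exact h3 hv.1 hv'.1
          · exact hv'.2 hv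
        · rcases hv' with hv' | hv'
          · exact h3 hv.1 hv'.1
          · exact hv.2 hv'
        · exact h3 hv.1 hv'.1
  · rw [hbase]; exact hrig.base
  · intro c s t h
    have h1 := hrig.hold c s t h
    rcases h1.cases_tail with h2 | ⟨z, -, h2⟩
    · rw [← h2]
      exact RIn.refl (Or.inl (Or.inl rfl))
    · have ht : t ∈ F.base m := by
        rcases z with a | v
        · exact absurd h2 (by simp [D])
        · exact h2.2
      exact key _ _ _ ⟨t, ht, rfl⟩ (by simp) h1
  · exact Finset.card_erase_lt_of_mem hp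

end Pool.Agent.H24.GW2
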